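import Mathlib
import Pool.Agent.Helper500.RA9

/-! Rational approximability of planar sets that lie on a line except for two points, or on a
circle except for one point. -/

set_option autoImplicit false

namespace Pool.Agent.Results.MP_39a2ce_co.AllButTwoOnALine

/-- A set of points of the plane is rational if all distances between its points are rational. -/
def IsRational (X : Set (EuclideanSpace ℝ (Fin 2))) : Prop :=
  ∀ x ∈ X, ∀ y ∈ X, ∃ r : ℚ, dist x y = (r : ℝ)

/-- A set `P` is rationally approximable if for every `ε > 0` there is a rational set `X` such that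
every point of `P` is at distance less than `ε` from some point of `X`. -/
def RationallyApproximable (P : Set (EuclideanSpace ℝ (Fin 2))) : Prop :=
  ∀ ε : ℝ, 0 < ε → ∃ X, IsRational X ∧ ∀ x ∈ P, ∃ y ∈ X, dist x y < ε

/-- sanity check: subsets of rationally approximable sets are rationally approximable -/
theorem RationallyApproximable.mono {P P' : Set (EuclideanSpace ℝ (Fin 2))} (h : P ⊆ P')
    (hP : RationallyApproximable P') : RationallyApproximable P := by
  intro ε hε
  obtain ⟨X, hX, h1⟩ := hP ε hε
  exact ⟨X, hX, fun x hx => h1 x (h hx)⟩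

/-- Every finite (more generally, every bounded) planar set all but at most two of whose points lie
on a line is rationally approximable, and every planar set all but at most one of whose points lie
on a circle is rationally approximable. -/
theorem result :
    (∀ P : Set (EuclideanSpace ℝ (Fin 2)), Bornology.IsBounded P →
      ∀ a b : EuclideanSpace ℝ (Fin 2), Collinear ℝ (P \ {a, b}) → RationallyApproximable P) ∧
    (∀ P : Set (EuclideanSpace ℝ (Fin 2)), ∀ a : EuclideanSpace ℝ (Fin 2),
      EuclideanGeometry.Cospherical (P \ {a}) → RationallyApproximable P) := by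
  constructor
  · intro P hP a b hcol ε hε
    set T : Set (EuclideanSpace ℝ (Fin 2)) := P ∪ {a, b} with hT
    have ha : a ∈ T := Or.inr (by simp)
    have hb : b ∈ T := Or.inr (by simp)
    obtain ⟨Q, hQ1, hQ2⟩ := Pool.Agent.Helper500.RA.line_two (ι := T) Subtype.val ⟨a, ha⟩ ⟨b, hb⟩
      (by
        refine hcol.subset ?_
        rintro _ ⟨⟨x, hx⟩, ⟨h1, h2⟩, rfl⟩
        have h1' : x ≠ a := fun h => h1 (Subtype.ext h)
        have h2' : x ≠ b := fun h => h2 (Subtype.ext h)
        rcases hx with hx | hx
        · refine ⟨hx, ?_⟩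
          simp [h1', h2']
        · simp only [Set.mem_insert_iff, Set.mem_singleton_iff] at hx
          rcases hx with hx | hx
          · exact absurd hx h1'
          · exact absurd hx h2')
      (by
        rw [Subtype.range_coe]
        exact hP.union (Set.Finite.isBounded (by simp))) hε
    refine ⟨Set.range Q, ?_, ?_⟩
    · rintro _ ⟨l, rfl⟩ _ ⟨m, rfl⟩
      exact hQ2 l m
    · intro x hx
      exact ⟨Q ⟨x, Or.inl hx⟩, ⟨_, rfl⟩, hQ1 ⟨x, Or.inl hx⟩⟩
  · intro P a hcos ε hε
    set T : Set (EuclideanSpace ℝ (Fin 2)) := P ∪ {a} with hT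
    have ha : a ∈ T := Or.inr (by simp)
    obtain ⟨Q, hQ1, hQ2⟩ := Pool.Agent.Helper500.RA.circle_one (ι := T) Subtype.val ⟨a, ha⟩
      (by
        refine hcos.subset ?_
        rintro _ ⟨⟨x, hx⟩, h1, rfl⟩
        have h1' : x ≠ a := fun h => h1 (Subtype.ext h)
        rcases hx with hx | hx
        · exact ⟨hx, h1'⟩
        · exact absurd hx h1') hε
    refine ⟨Set.range Q, ?_, ?_⟩
    · rintro _ ⟨l, rfl⟩ _ ⟨m, rfl⟩
      exact hQ2 l m
    · intro x hx
      exact ⟨Q ⟨x, Or.inl hx⟩, ⟨_, rfl⟩, hQ1 ⟨x, Or.inl hx⟩⟩

end Pool.Agent.Results.MP_39a2ce_co.AllButTwoOnALine
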